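import Pool.Agent.Lib.MP_36fb43_ag.Main
import Pool.Agent.Lib.MP_36fb43_ag.Front

namespace Pool.Agent.Lib.MP_36fb43_ag.Old.V1

/-- A smooth threefold in `ℙ⁵` that is not quadratically normal is a Palatini threefold. -/
theorem result (X : Set PVS.P5) (hX : PVS.SmoothThreefold X) (h : ¬ PVS.QuadNormal X) :
    ∃ W : Submodule ℂ (LinearMap.BilinForm ℂ (Fin 6 → ℂ)), (∀ ω ∈ W, ω.IsAlt) ∧
      Module.finrank ℂ W = 4 ∧ X = PVS.XW W := by
  obtain ⟨Z, hZ⟩ := PV.front_cone hX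
  obtain ⟨s, hs⟩ := PV.front_sect hX h Z hZ
  exact PV.front_pal hX (hZ ▸ PV.main s hs)

end Pool.Agent.Lib.MP_36fb43_ag.Old.V1
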